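import Mathlib
import Pool.Agent.Lib_helper96.DetMax

/-!
# The determinant maximising matrix of a graph can have negative entries

For a graph `G` and `x ∈ [0,1)` let `𝒜(G,x)` be the set of positive definite matrices with unit
diagonal and entry `x` on every edge, and let `A_G(x)` be its unique element of maximal determinant.
The question asks whether all entries of `A_G(x)` are non-negative (Q1), and strictly positive when
`G` is connected and `0 < x` (Q2). Both fail.

The graph has 596 vertices: four core vertices `0,1,2,3` with the two edges `0-2` and `1-3`, and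
185, 222, 185 further vertices, each adjacent exactly to `0,1`, to `1,2`, to `2,3` respectively.
For `x = 1/10` the core block of `A_G(x)` is the Toeplitz matrix with first row
`1, 1/2, 1/10, -1/25`, so the entry at `(0,3)` is `-1/25`.
-/

namespace Pool.Agent.Results.MP_e7c87c_co.NegativeEntry

variable {V : Type*} [Fintype V] [DecidableEq V]

/-- `𝒜(G,x)`: the real symmetric positive definite `V × V` matrices `M` with `M v v = 1` for every
vertex `v` and `M u v = x` for every edge `uv`. (`Matrix.PosDef` includes symmetry.) -/
def feasible (G : SimpleGraph V) (x : ℝ) : Set (Matrix V V ℝ) :=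
  {M | M.PosDef ∧ (∀ v, M v v = 1) ∧ ∀ u v, G.Adj u v → M u v = x}

/-- `A` is an element of `𝒜(G,x)` of maximal determinant. -/
def IsDetMaximiser (G : SimpleGraph V) (x : ℝ) (A : Matrix V V ℝ) : Prop :=
  A ∈ feasible G x ∧ ∀ M ∈ feasible G x, M.det ≤ A.det

/-- There are a connected finite simple graph `G`, a real `x ∈ (0,1)` and vertices `u`, `v` such that
the unique determinant maximising matrix `A = A_G(x)` has `A u v < 0`. -/
theorem result : ∃ (V : Type) (_ : Fintype V) (_ : DecidableEq V) (G : SimpleGraph V) (x : ℝ)
    (A : Matrix V V ℝ) (u v : V), G.Connected ∧ 0 < x ∧ x < 1 ∧ IsDetMaximiser G x A ∧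
      (∀ B, IsDetMaximiser G x B → B = A) ∧ A u v < 0 :=
  Pool.Agent.Lib_helper96.DetMax.main

end Pool.Agent.Results.MP_e7c87c_co.NegativeEntry
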